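import Pool.Agent.Helper74.FP.Goals

/-!
# Project FP, packet F2: the union of generating sets
-/

set_option autoImplicit false

namespace Pool.Agent.Helper41.FP

open Pool.Agent.Helper52.Wq2 Pool.Agent.Helper74.FP Monoid

universe u

theorem f2 : F2Stmt.{u} := by
  intro ι A _ S hS
  refine ⟨?_, ?_, ?_⟩
  · rw [eq_top_iff]
    rintro x -
    induction x using CoprodI.induction_on with
    | one => exact Subgroup.one_mem _
    | of i m =>
      have h1 : (Subgroup.closure (S i)).map (CoprodI.of (M := A) (i := i)) ≤
          Subgroup.closure (US S) := by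
        rw [Subgroup.map_le_iff_le_comap, Subgroup.closure_le]
        intro s hs
        exact Subgroup.subset_closure ⟨i, s, hs, rfl⟩
      apply h1
      refine Subgroup.mem_map_of_mem _ ?_
      rw [(hS i).1]
      exact Subgroup.mem_top _
    | mul x y hx hy => exact Subgroup.mul_mem _ hx hy
  · rintro x ⟨i, s, hs, rfl⟩
    exact ⟨i, s⁻¹, (hS i).2.1 s hs, (map_inv _ s).symm⟩
  · rintro ⟨i, s, hs, h⟩
    have h1 : s = 1 := by
      apply CoprodI.of_injective (M := A) i
      rw [← h, map_one]
    rw [h1] at hs
    exact (hS i).2.2 hs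

end Pool.Agent.Helper41.FP
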