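import Pool.Agent.Helper74.FP.Goals
import Pool.Agent.Helper52.Wq2.Minor

set_option autoImplicit false

namespace Pool.Agent.Helper41.FP

open Pool.Agent.Helper52.Wq2 Pool.Agent.Helper61.NW Pool.Agent.Helper74.FP Monoid

universe u

open Classical in
/-- the left inverse -/
noncomputable def back {ι κ : Type} (f : ι → κ) (B : κ → Type u) [∀ k, Group (B k)] :
    CoprodI B →* CoprodI (fun i => B (f i)) :=
  CoprodI.lift fun k =>
    if h : ∃ i, f i = k then
      (h.choose_spec ▸ (CoprodI.of (M := fun i => B (f i)) (i := h.choose)) :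
        B k →* CoprodI (fun i => B (f i)))
    else 1

theorem back_aux {ι κ : Type} (f : ι → κ) (hf : Function.Injective f) (B : κ → Type u)
    [∀ k, Group (B k)] (i j : ι) (h : f j = f i) (x : B (f i)) :
    (h ▸ (CoprodI.of (M := fun i => B (f i)) (i := j)) : B (f i) →* CoprodI (fun i => B (f i))) x
      = CoprodI.of (M := fun i => B (f i)) (i := i) x := by
  obtain rfl := hf h
  rfl

theorem back_of {ι κ : Type} (f : ι → κ) (hf : Function.Injective f) (B : κ → Type u)
    [∀ k, Group (B k)] (i : ι) (x : B (f i)) :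
    back f B (CoprodI.of (i := f i) x) = CoprodI.of (M := fun i => B (f i)) (i := i) x := by
  unfold back
  rw [CoprodI.lift_of]
  have h : ∃ j, f j = f i := ⟨i, rfl⟩
  rw [dif_pos h]
  exact back_aux f hf B i h.choose h.choose_spec x

/-- the map -/
noncomputable def forw {ι κ : Type} (f : ι → κ) (B : κ → Type u) [∀ k, Group (B k)] :
    CoprodI (fun i => B (f i)) →* CoprodI B :=
  CoprodI.lift fun i => CoprodI.of (M := B) (i := f i)

theorem forw_of {ι κ : Type} (f : ι → κ) (B : κ → Type u)
    [∀ k, Group (B k)] (i : ι) (x : B (f i)) :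
    forw f B (CoprodI.of (M := fun i => B (f i)) (i := i) x) = CoprodI.of (i := f i) x := by
  unfold forw
  rw [CoprodI.lift_of]

theorem back_forw {ι κ : Type} (f : ι → κ) (hf : Function.Injective f) (B : κ → Type u)
    [∀ k, Group (B k)] (x : CoprodI (fun i => B (f i))) : back f B (forw f B x) = x := by
  have h : (back f B).comp (forw f B) = MonoidHom.id _ := by
    apply CoprodI.ext_hom
    intro i
    ext y
    simp only [MonoidHom.comp_apply, MonoidHom.id_apply]
    rw [forw_of, back_of f hf]
  exact DFunLike.congr_fun h x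

theorem forw_inj {ι κ : Type} (f : ι → κ) (hf : Function.Injective f) (B : κ → Type u)
    [∀ k, Group (B k)] : Function.Injective (forw f B) :=
  Function.LeftInverse.injective (back_forw f hf B)

theorem forw_US {ι κ : Type} (f : ι → κ) (B : κ → Type u) [∀ k, Group (B k)]
    (T : ∀ k, Set (B k)) (x : CoprodI (fun i => B (f i)))
    (hx : x ∈ US (A := fun i => B (f i)) fun i => T (f i)) : forw f B x ∈ US T := by
  obtain ⟨i, s, hs, rfl⟩ := hx
  exact ⟨f i, s, hs, forw_of f B i s⟩

theorem f5 : F5Stmt.{u} := by
  intro ι κ f B _ T hf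
  refine Mn.of_inj (forw f B) (forw_inj f hf B) ?_
  intro a b hab
  rw [cay, SimpleGraph.fromRel_adj] at hab ⊢
  obtain ⟨hne, h⟩ := hab
  refine ⟨fun e => hne (forw_inj f hf B e), ?_⟩
  rcases h with h | h
  · left
    have := forw_US f B T _ h
    rwa [map_mul, map_inv] at this
  · right
    have := forw_US f B T _ h
    rwa [map_mul, map_inv] at this

end Pool.Agent.Helper41.FP
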